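import Mathlib

/-!
# The converse of Nitecki's theorem for multigeometric series is false

Counterexample: `n = 28`, `(k₁,…,k₅) = (1, 8, 16, 32, 48)`.
Here `Σ = {0, 1} + 8 * {0, …, 13}` has exactly `28` elements, no `k_i` is divisible by `28`, the
`k_i` are pairwise distinct and their gcd is `1`; but `0` and `56` both lie in `Σ`.
The achievement set has positive measure since all base `28` expansions with digits in `Σ` are
pairwise distinct.
-/

open MeasureTheory Set

namespace Pool.Agent.Results.MP_ee56ef_an.NiteckiConverse

/-- The achievement set of a real sequence `x`: all sums of `x` over sets of indices. -/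
def achievementSet (x : ℕ → ℝ) : Set ℝ :=
  {s | ∃ A : Set ℕ, s = ∑' j : A, x j}

/-- The multigeometric sequence `(k₁,…,k_m; 1/n)`: the term with (zero-based) index `j = m q + r`,
`0 ≤ r < m`, is `k_{r+1} / n ^ (q+1)`. -/
noncomputable def multigeometric {m : ℕ} (hm : 0 < m) (k : Fin m → ℕ) (n : ℕ) (j : ℕ) : ℝ :=
  (k ⟨j % m, Nat.mod_lt j hm⟩ : ℝ) / (n : ℝ) ^ (j / m + 1)

/-- The set `Σ` of (distinct) subsums of `k₁,…,k_m`. -/
def subsums {m : ℕ} (k : Fin m → ℕ) : Finset ℕ :=
  (Finset.univ : Finset (Finset (Fin m))).image fun S => ∑ i ∈ S, k i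

/-! ### General facts on achievement sets of multigeometric series -/

section General

variable {m : ℕ} (hm : 0 < m) (k : Fin m → ℕ) (n : ℕ)

lemma multigeometric_nonneg (j : ℕ) : 0 ≤ multigeometric hm k n j := by
  unfold multigeometric; positivity

lemma summable_multigeometric (hn : 2 ≤ n) : Summable (multigeometric hm k n) := by
  have : NeZero m := ⟨hm.ne'⟩
  have h1 : Summable (fun q : ℕ => (1 : ℝ) / (n : ℝ) ^ (q + 1)) := by
    have h : Summable (fun q : ℕ => ((1 : ℝ) / n) ^ (q + 1)) := by
      apply (summable_nat_add_iff 1).2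
      apply summable_geometric_of_lt_one (by positivity)
      rw [div_lt_one (by positivity)]
      exact_mod_cast hn
    refine h.congr fun q => ?_
    rw [one_div_pow]
  have h2 : Summable (fun r : Fin m => (k r : ℝ)) := (hasSum_fintype _).summable
  have h3 := h1.mul_of_nonneg h2 (fun _ => by positivity) (fun _ => by positivity)
  rw [← (Nat.divModEquiv m).summable_iff] at h3
  refine h3.congr fun j => ?_
  simp only [Function.comp, multigeometric, Nat.divModEquiv_apply]
  rw [one_div, mul_comm, div_eq_mul_inv]
  congr 3

lemma multigeometric_add (j : ℕ) :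
    multigeometric hm k n (j + m) = multigeometric hm k n j / n := by
  unfold multigeometric
  have h1 : (j + m) / m = j / m + 1 := Nat.add_div_right j hm
  have h2 : (⟨(j + m) % m, Nat.mod_lt _ hm⟩ : Fin m) = ⟨j % m, Nat.mod_lt _ hm⟩ := by
    ext; simp
  rw [h1, h2, pow_succ _ (j / m + 1), div_div]

lemma zero_mem : (0 : ℝ) ∈ achievementSet (multigeometric hm k n) := ⟨∅, by simp⟩

/-- Self-similarity: prepending a digit. -/
lemma step_mem (hn : 2 ≤ n) {t : ℝ} (ht : t ∈ achievementSet (multigeometric hm k n))
    {d : ℕ} (hd : d ∈ subsums k) :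
    ((d : ℝ) + t) / n ∈ achievementSet (multigeometric hm k n) := by
  obtain ⟨A, rfl⟩ := ht
  simp only [subsums, Finset.mem_image, Finset.mem_univ, true_and] at hd
  obtain ⟨S, rfl⟩ := hd
  refine ⟨{j | (∃ h : j < m, (⟨j, h⟩ : Fin m) ∈ S) ∨ (m ≤ j ∧ j - m ∈ A)}, ?_⟩
  set A' : Set ℕ := {j | (∃ h : j < m, (⟨j, h⟩ : Fin m) ∈ S) ∨ (m ≤ j ∧ j - m ∈ A)} with hA'
  rw [tsum_subtype A, tsum_subtype A']
  have hs : Summable (A'.indicator (multigeometric hm k n)) :=
    (summable_multigeometric hm k n hn).indicator A'
  rw [← hs.sum_add_tsum_nat_add m]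
  have h1 : ∀ j, A'.indicator (multigeometric hm k n) (j + m)
      = (A.indicator (multigeometric hm k n) j) / n := by
    intro j
    by_cases hj : j ∈ A
    · have : j + m ∈ A' := by
        simp only [hA', mem_ofPred_eq]; right; exact ⟨by omega, by simpa using hj⟩
      rw [indicator_of_mem this, indicator_of_mem hj, multigeometric_add]
    · have : j + m ∉ A' := by
        simp only [hA', mem_ofPred_eq, not_or, not_exists, not_and]
        exact ⟨fun h => by omega, fun _ => by simpa using hj⟩
      rw [indicator_of_notMem this, indicator_of_notMem hj, zero_div]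
  simp_rw [h1]
  rw [tsum_div_const, add_div]
  congr 1
  rw [← Fin.sum_univ_eq_sum_range (fun j => A'.indicator (multigeometric hm k n) j) m]
  rw [Nat.cast_sum, Finset.sum_div, ← Finset.sum_filter_add_sum_filter_not Finset.univ (· ∈ S)]
  rw [Finset.sum_eq_zero (s := Finset.univ.filter (fun x => ¬ (x ∈ S))), add_zero]
  · have : Finset.univ.filter (· ∈ S) = S := by ext; simp
    rw [this]
    refine Finset.sum_congr rfl fun i hi => ?_
    have : (i : ℕ) ∈ A' := by
      simp only [hA', mem_ofPred_eq]; left; exact ⟨i.2, hi⟩
    rw [indicator_of_mem this]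
    unfold multigeometric
    have h2 : (i : ℕ) / m = 0 := Nat.div_eq_of_lt i.2
    have h3 : (⟨(i : ℕ) % m, Nat.mod_lt _ hm⟩ : Fin m) = i := by
      ext; simp [Nat.mod_eq_of_lt i.2]
    rw [h2, h3]; simp
  · intro i hi
    simp only [Finset.mem_filter, Finset.mem_univ, true_and] at hi
    apply indicator_of_notMem
    simp only [hA', mem_ofPred_eq, not_or, not_exists, not_and]
    exact ⟨fun _ => hi, fun h => by omega⟩

lemma isCompact_achievementSet (hn : 2 ≤ n) :
    IsCompact (achievementSet (multigeometric hm k n)) := by
  classical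
  have hs := summable_multigeometric hm k n hn
  let Φ : (ℕ → Bool) → ℝ := fun f => ∑' j, if f j then multigeometric hm k n j else 0
  have hΦ : Continuous Φ := by
    refine continuous_tsum (u := multigeometric hm k n) ?_ hs ?_
    · intro j
      have : (fun f : ℕ → Bool => if f j then multigeometric hm k n j else 0)
          = (fun b : Bool => if b then multigeometric hm k n j else 0) ∘ (fun f : ℕ → Bool => f j) :=
        rfl
      rw [this]
      exact (continuous_of_discreteTopology).comp (continuous_apply j)
    · intro j f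
      have := multigeometric_nonneg hm k n j
      split_ifs
      · rw [Real.norm_of_nonneg this]
      · simpa using this
  have : achievementSet (multigeometric hm k n) = range Φ := by
    ext s
    constructor
    · rintro ⟨A, rfl⟩
      refine ⟨fun j => decide (j ∈ A), ?_⟩
      rw [tsum_subtype A]
      simp only [Φ, indicator_apply, decide_eq_true_eq]
    · rintro ⟨f, rfl⟩
      refine ⟨{j | f j = true}, ?_⟩
      rw [tsum_subtype]
      simp only [Φ, indicator_apply, mem_ofPred_eq]
  rw [this]
  exact isCompact_range hΦ

/-- The finite expansions with `N` digits from `Σ`, as integers. -/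
def expansions {m : ℕ} (k : Fin m → ℕ) (n : ℕ) : ℕ → Finset ℕ
  | 0 => {0}
  | N + 1 => (expansions k n N ×ˢ subsums k).image fun p => n * p.1 + p.2

lemma expansions_mem (hn : 2 ≤ n) (N : ℕ) :
    ∀ p ∈ expansions k n N, ∀ t ∈ achievementSet (multigeometric hm k n),
      ((p : ℝ) + t) / (n : ℝ) ^ N ∈ achievementSet (multigeometric hm k n) := by
  have hn0 : (n : ℝ) ≠ 0 := by positivity
  induction N with
  | zero =>
    intro p hp t ht
    simp only [expansions, Finset.mem_singleton] at hp
    subst hp
    simpa using ht
  | succ N ih =>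
    intro p hp t ht
    simp only [expansions, Finset.mem_image, Finset.mem_product, Prod.exists] at hp
    obtain ⟨a, d, ⟨ha, hd⟩, rfl⟩ := hp
    have := ih a ha _ (step_mem hm k n hn ht hd)
    convert this using 1
    push_cast
    rw [pow_succ]
    field_simp
    ring

/-- If all expansions with digits in `Σ` are distinct (so that there are `n ^ N` of them for each
number `N` of digits), then the achievement set has measure at least one. -/
lemma one_le_volume (hn : 2 ≤ n) (hcard : ∀ N, (expansions k n N).card = n ^ N) :
    1 ≤ volume (achievementSet (multigeometric hm k n)) := by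
  set T := achievementSet (multigeometric hm k n) with hT
  have hc : IsCompact T := isCompact_achievementSet hm k n hn
  have hn0 : (0 : ℝ) < n := by positivity
  have hlim := tendsto_measure_cthickening_of_isCompact (μ := volume) hc
  have hseq : Filter.Tendsto (fun N : ℕ => ((1 : ℝ) / n) ^ N) Filter.atTop (nhds 0) := by
    apply tendsto_pow_atTop_nhds_zero_of_lt_one (by positivity)
    rw [div_lt_one (by positivity)]
    exact_mod_cast hn
  have hlim2 := hlim.comp hseq
  refine ge_of_tendsto' hlim2 fun N => ?_
  simp only [Function.comp]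
  set δ : ℝ := (1 / (n : ℝ)) ^ N with hδ
  have hδpos : 0 < δ := by positivity
  -- the union of the half-open intervals
  have hsub : (⋃ p ∈ expansions k n N, Ico ((p : ℝ) * δ) (((p : ℝ) + 1) * δ))
      ⊆ Metric.cthickening δ T := by
    intro y hy
    simp only [mem_iUnion, mem_Ico, exists_prop] at hy
    obtain ⟨p, hp, h1, h2⟩ := hy
    have hpT : (p : ℝ) * δ ∈ T := by
      have := expansions_mem hm k n hn N p hp 0 (zero_mem hm k n)
      rw [add_zero] at this
      convert this using 1
      rw [hδ, one_div, inv_pow, div_eq_mul_inv]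
    apply Metric.mem_cthickening_of_dist_le y _ δ T hpT
    rw [Real.dist_eq, abs_le]
    constructor <;> nlinarith
  have hmeas : volume (⋃ p ∈ expansions k n N, Ico ((p : ℝ) * δ) (((p : ℝ) + 1) * δ)) = 1 := by
    rw [measure_biUnion_finset]
    · have : ∀ p ∈ expansions k n N, volume (Ico ((p : ℝ) * δ) (((p : ℝ) + 1) * δ))
          = ENNReal.ofReal δ := by
        intro p _
        rw [Real.volume_Ico]; congr 1; ring
      rw [Finset.sum_congr rfl this, Finset.sum_const, hcard, nsmul_eq_mul]
      rw [← ENNReal.ofReal_natCast, ← ENNReal.ofReal_mul (by positivity)]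
      have : ((n ^ N : ℕ) : ℝ) * δ = 1 := by
        rw [hδ]; push_cast
        rw [one_div, inv_pow, mul_inv_cancel₀]
        positivity
      rw [this, ENNReal.ofReal_one]
    · intro p _ q _ hpq
      simp only [Function.onFun]
      rw [Set.disjoint_left]
      intro y hy1 hy2
      rw [mem_Ico] at hy1 hy2
      have h1 : (p : ℝ) < q + 1 := by
        by_contra hcon; push Not at hcon
        nlinarith [hy1.1, hy2.2]
      have h2 : (q : ℝ) < p + 1 := by
        by_contra hcon; push Not at hcon
        nlinarith [hy2.1, hy1.2]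
      have h1' : p < q + 1 := by exact_mod_cast h1
      have h2' : q < p + 1 := by exact_mod_cast h2
      exact hpq (by omega)
    · intro p _; exact measurableSet_Ico
  calc (1 : ENNReal) = volume (⋃ p ∈ expansions k n N, Ico ((p : ℝ) * δ) (((p : ℝ) + 1) * δ)) :=
        hmeas.symm
    _ ≤ volume (Metric.cthickening δ T) := measure_mono hsub

end General

/-! ### The counterexample -/

/-- The tuple `(1, 8, 16, 32, 48)`. -/
def kk : Fin 5 → ℕ := ![1, 8, 16, 32, 48]

lemma subsums_kk : subsums kk =
    (Finset.range 2 ×ˢ Finset.range 14).image (fun p => p.1 + 8 * p.2) := by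
  decide +kernel

lemma card_subsums_kk : (subsums kk).card = 28 := by
  rw [subsums_kk]; decide +kernel

lemma expansions_mod (N : ℕ) : ∀ p ∈ expansions kk 28 N, p % 4 ≤ 1 := by
  cases N with
  | zero => intro p hp; simp only [expansions, Finset.mem_singleton] at hp; subst hp; norm_num
  | succ N =>
    intro p hp
    simp only [expansions, Finset.mem_image, Finset.mem_product, Prod.exists, subsums_kk,
      Finset.mem_range] at hp
    obtain ⟨a, d, ⟨_, ⟨x, y, ⟨hx, hy⟩, rfl⟩⟩, rfl⟩ := hp
    omega

lemma card_expansions (N : ℕ) : (expansions kk 28 N).card = 28 ^ N := by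
  induction N with
  | zero => simp [expansions]
  | succ N ih =>
    rw [expansions, Finset.card_image_of_injOn, Finset.card_product, ih, card_subsums_kk, pow_succ]
    rintro ⟨p, d⟩ hpd ⟨p', d'⟩ hpd' heq
    simp only [Finset.coe_product, mem_prod, Finset.mem_coe] at hpd hpd'
    obtain ⟨hp, hd⟩ := hpd
    obtain ⟨hp', hd'⟩ := hpd'
    have h1 := expansions_mod N p hp
    have h2 := expansions_mod N p' hp'
    rw [subsums_kk] at hd hd'
    simp only [Finset.mem_image, Finset.mem_product, Prod.exists, Finset.mem_range] at hd hd'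
    obtain ⟨x, y, ⟨hx, hy⟩, rfl⟩ := hd
    obtain ⟨x', y', ⟨hx', hy'⟩, rfl⟩ := hd'
    simp only at heq
    have : p = p' ∧ x + 8 * y = x' + 8 * y' := by omega
    rw [this.1, this.2]

/-- **The converse of Nitecki's theorem fails.** There are `n`, `k₁,…,k_m` (namely `n = 28` and
`(1, 8, 16, 32, 48)`), with all `k_i` positive, not divisible by `n`, pairwise distinct and with
greatest common divisor `1`, such that the set `Σ` of subsums has exactly `n` elements and the
achievement set of the multigeometric series `(k₁,…,k_m; 1/n)` has positive Lebesgue measure,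
while two distinct elements of `Σ` are congruent modulo `n`. -/
theorem result :
    ∃ (n m : ℕ) (hm : 0 < m) (k : Fin m → ℕ),
      2 ≤ n ∧ (∀ i, 0 < k i) ∧ (∀ i, ¬ n ∣ k i) ∧ (subsums k).card = n ∧
      0 < volume (achievementSet (multigeometric hm k n)) ∧
      Function.Injective k ∧ Finset.univ.gcd k = 1 ∧
      ∃ σ ∈ subsums k, ∃ τ ∈ subsums k, σ ≠ τ ∧ σ ≡ τ [MOD n] := by
  refine ⟨28, 5, by norm_num, kk, by norm_num, by decide, by decide, card_subsums_kk, ?_, ?_, ?_,
    0, ?_, 56, ?_, by norm_num, by decide⟩
  · exact lt_of_lt_of_le zero_lt_one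
      (one_le_volume (by norm_num) kk 28 (by norm_num) card_expansions)
  · decide +kernel
  · decide +kernel
  · rw [subsums_kk]; decide +kernel
  · rw [subsums_kk]; decide +kernel

end Pool.Agent.Results.MP_ee56ef_an.NiteckiConverse
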